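import Pool.Agent.Y195.CB.JLX

/-!
# Closed 3-braids: the undeformed case and continuity (task JLC of Y472)
-/

set_option autoImplicit false

namespace Pool.Agent.Y195.CB

open Finset Filter Topology Pool.Agent.H550R3.Jones Pool.Agent.W711.HT Pool.Agent.Y472
open scoped Real

/-! ### Gaussian binomials -/

theorem qb_zero_of_lt (w : ℂ) : ∀ m n : ℕ, m < n → qb w m n = 0 := by
  intro m
  induction m with
  | zero =>
    intro n hn
    obtain ⟨n, rfl⟩ : ∃ k, n = k + 1 := ⟨n - 1, by omega⟩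
    rfl
  | succ m ih =>
    intro n hn
    obtain ⟨n, rfl⟩ : ∃ k, n = k + 1 := ⟨n - 1, by omega⟩
    show w ^ ((n : ℤ) + 1) * qb w m (n + 1) + w ^ ((n : ℤ) - m) * qb w m n = 0
    rw [ih n (by omega), ih (n + 1) (by omega)]
    simp

theorem qb_zero (w : ℂ) (m : ℕ) : qb w m 0 = 1 := by
  cases m <;> rfl

theorem brf_succ (w : ℂ) (n : ℕ) : brf w (n + 1) = brf w n * br w ((n : ℤ) + 1) := by
  unfold brf
  rw [Finset.prod_range_succ]

theorem qb_formula (w : ℂ) (hw : w ≠ 0) : ∀ m n : ℕ, n ≤ m → (∀ k : ℕ, k < m → br w ((k : ℤ) + 1) ≠ 0) →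
    qb w m n * (brf w (m - n) * brf w n) = brf w m := by
  intro m
  induction m with
  | zero =>
    intro n hn _
    obtain rfl : n = 0 := by omega
    rw [qb_zero]
    simp [brf]
  | succ m ih =>
    intro n hn hk
    rcases Nat.eq_zero_or_pos n with h0 | h0
    · subst h0
      rw [qb_zero]
      simp [brf]
    · obtain ⟨n, rfl⟩ : ∃ k, n = k + 1 := ⟨n - 1, by omega⟩
      have hk' : ∀ k : ℕ, k < m → br w ((k : ℤ) + 1) ≠ 0 := fun k h => hk k (by omega)
      have i1 := ih n (by omega) hk'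
      show (w ^ ((n : ℤ) + 1) * qb w m (n + 1) + w ^ ((n : ℤ) - m) * qb w m n) *
        (brf w (m + 1 - (n + 1)) * brf w (n + 1)) = brf w (m + 1)
      have e0 : m + 1 - (n + 1) = m - n := by omega
      rw [e0, brf_succ w m, brf_succ w n]
      have key : br w ((m : ℤ) + 1) = w ^ ((n : ℤ) + 1) * br w ((m : ℤ) - n) +
          w ^ ((n : ℤ) - m) * br w ((n : ℤ) + 1) := by
        unfold br
        rw [mul_sub, mul_sub, ← zpow_add₀ hw, ← zpow_add₀ hw, ← zpow_add₀ hw, ← zpow_add₀ hw]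
        have a1 : (n : ℤ) + 1 + (m - n) = m + 1 := by ring
        have a2 : (n : ℤ) + 1 + -(m - n) = (n : ℤ) - m + (n + 1) := by ring
        have a3 : (n : ℤ) - m + -(n + 1) = -((m : ℤ) + 1) := by ring
        rw [a1, a2, a3]
        ring
      rcases Nat.lt_or_ge m (n + 1) with hmn | hmn
      · have : m = n := by omega
        subst this
        rw [qb_zero_of_lt w m (m + 1) (by omega)]
        have : brf w (m - m) = 1 := by simp [brf]
        rw [this] at i1 ⊢
        have : (m : ℤ) - m = 0 := by ring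
        rw [this, zpow_zero]
        linear_combination br w ((m : ℤ) + 1) * i1
      · have i2 := ih (n + 1) (by omega) hk'
        have e1 : m - n = (m - (n + 1)) + 1 := by omega
        rw [brf_succ w n] at i2
        have e2 : br w (((m - (n + 1) : ℕ) : ℤ) + 1) = br w ((m : ℤ) - n) := by
          congr 1
          push_cast [hmn]
          ring
        have e3 : brf w (m - n) = brf w (m - (n + 1)) * br w ((m : ℤ) - n) := by
          rw [e1, brf_succ, e2]
        rw [key]
        have : (w ^ ((n : ℤ) + 1) * qb w m (n + 1) + w ^ ((n : ℤ) - m) * qb w m n) *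
            (brf w (m - n) * (brf w n * br w ((n : ℤ) + 1))) =
            w ^ ((n : ℤ) + 1) * (qb w m (n + 1) * (brf w (m - (n + 1)) *
              (brf w n * br w ((n : ℤ) + 1)))) * br w ((m : ℤ) - n) +
            w ^ ((n : ℤ) - m) * (qb w m n * (brf w (m - n) * brf w n)) * br w ((n : ℤ) + 1) := by
          rw [e3]
          ring
        rw [this, i1, i2]
        ring

theorem br_ne (N : ℕ) (w : ℂ) (h : Rt N w) (k : ℕ) (hk : k + 1 < N) : br w ((k : ℤ) + 1) ≠ 0 := by
  intro h0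
  have hw : w ≠ 0 := by
    rintro rfl
    have := h.nrm
    simp at this
  unfold br at h0
  have h1 : w ^ ((k : ℤ) + 1) = w ^ (-((k : ℤ) + 1)) := sub_eq_zero.mp h0
  have h2 : (w ^ 2) ^ (k + 1) = 1 := by
    have : (w ^ 2) ^ (k + 1) = w ^ ((k : ℤ) + 1) * w ^ ((k : ℤ) + 1) := by
      rw [← zpow_add₀ hw, ← pow_mul, ← zpow_natCast]
      congr 1
      push_cast
      ring
    rw [this]
    nth_rw 1 [h1]
    rw [← zpow_add₀ hw]
    simp
  have h3 := h.prim.dvd_of_pow_eq_one (k + 1) h2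
  have := Nat.le_of_dvd (by omega) h3
  omega

theorem brf_ne (N : ℕ) (w : ℂ) (h : Rt N w) (k : ℕ) (hk : k < N) : brf w k ≠ 0 := by
  unfold brf
  rw [Finset.prod_ne_zero_iff]
  intro j hj
  exact br_ne N w h j (by have := mem_range.mp hj; omega)

theorem rt_ne {N : ℕ} {w : ℂ} (h : Rt N w) : w ≠ 0 := by
  rintro rfl
  have := h.nrm
  simp at this

theorem qb_eq (N : ℕ) (w : ℂ) (h : Rt N w) (m n : ℕ) (hm : m < N) (hn : n ≤ m) :
    qb w m n = brf w m / (brf w (m - n) * brf w n) := by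
  rw [eq_div_iff (mul_ne_zero (brf_ne N w h _ (by omega)) (brf_ne N w h _ (by omega)))]
  exact qb_formula w (rt_ne h) m n hn fun k hk => br_ne N w h k (by omega)

/-! ### The crossings -/

theorem lb_neg (N : ℕ) (w : ℂ) (h : Rt N w) (k : ℤ) : lb w (-1) k = br w ((N : ℤ) + k) := by
  have hw := rt_ne h
  unfold lb cb br
  have : (-1 : ℂ) * w ^ k = w ^ ((N : ℤ) + k) := by
    rw [zpow_add₀ hw, zpow_natCast, h.neg]
  rw [this, zpow_neg]

theorem KK_neg (N : ℕ) (w : ℂ) (h : Rt N w) (a : ℕ) :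
    KK w (-1) a = w ^ ((N : ℤ) - 1 - 2 * (a : ℤ)) := by
  have hw := rt_ne h
  unfold KK
  have : (N : ℤ) - 1 - 2 * a = N + (-1 - 2 * a) := by ring
  rw [this, zpow_add₀ hw, zpow_natCast, h.neg]

theorem neg_zpow (N : ℕ) (w : ℂ) (h : Rt N w) (k : ℤ) : (-1 : ℂ) ^ k = w ^ ((N : ℤ) * k) := by
  rw [zpow_mul, zpow_natCast, h.neg]

theorem mx_sg (N : ℕ) (w : ℂ) (h : Rt N w) : mx N (sg w (-1)) = crossP N w := by
  have hw := rt_ne h
  funext p q
  obtain ⟨⟨a, ha⟩, ⟨b, hb⟩⟩ := p
  obtain ⟨⟨c, hc⟩, ⟨d, hd⟩⟩ := q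
  show (-1 : ℂ) ^ (-(1 + (a : ℤ) + b)) * w ^ (1 + (a : ℤ) + b + 2 * a * b) *
    ∑ n ∈ range (a + 1), w ^ (n * (n - 1) / 2) * qb w a n *
      (∏ t ∈ range n, lb w (-1) (-(b : ℤ) - 1 - t)) * dl c d (b + n) (a - n) =
    if a + b = c + d ∧ d ≤ a then
    w ^ (-((N : ℤ) - 1) * (1 + c + d) + 2 * a * b) *
      w ^ ((a - d) * (a - d - 1) / 2) *
      (brf w a / (brf w d * brf w (a - d))) *
      ∏ t ∈ range (a - d), br w ((N : ℤ) - c + t)
    else 0
  by_cases hcd : a + b = c + d ∧ d ≤ a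
  · obtain ⟨h1, h2⟩ := hcd
    rw [if_pos ⟨h1, h2⟩]
    rw [Finset.sum_eq_single (a - d)]
    · have e1 : dl c d (b + (a - d)) (a - (a - d)) = 1 := by
        unfold dl
        rw [if_pos]
        omega
      rw [e1, mul_one, qb_eq N w h a (a - d) ha (by omega), neg_zpow N w h]
      have e2 : a - (a - d) = d := by omega
      rw [e2]
      have e3 : ∏ t ∈ range (a - d), lb w (-1) (-(b : ℤ) - 1 - t) =
          ∏ t ∈ range (a - d), br w ((N : ℤ) - c + t) := by
        rw [← Finset.prod_range_reflect]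
        refine Finset.prod_congr rfl fun t ht => ?_
        rw [lb_neg N w h]
        congr 1
        have := mem_range.mp ht
        have e : ((a - d - 1 - t : ℕ) : ℤ) = (a : ℤ) - d - 1 - t := by omega
        rw [e]
        have : (a : ℤ) + b = c + d := by exact_mod_cast h1
        linarith
      rw [e3]
      have e4 : w ^ ((N : ℤ) * -(1 + (a : ℤ) + b)) * w ^ (1 + (a : ℤ) + b + 2 * a * b) =
          w ^ (-((N : ℤ) - 1) * (1 + c + d) + 2 * a * b) := by
        rw [← zpow_add₀ hw]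
        congr 1
        have : (a : ℤ) + b = c + d := by exact_mod_cast h1
        have e : (c : ℤ) = a + b - d := by linarith
        rw [e]
        ring
      rw [e4]
      ring
    · intro n hn hne
      have : dl c d (b + n) (a - n) = 0 := by
        unfold dl
        rw [if_neg]
        rintro ⟨h3, h4⟩
        have := mem_range.mp hn
        omega
      rw [this, mul_zero]
    · intro h3
      exact absurd (mem_range.mpr (by omega)) h3
  · rw [if_neg hcd, Finset.sum_eq_zero, mul_zero]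
    intro n hn
    have : dl c d (b + n) (a - n) = 0 := by
      unfold dl
      rw [if_neg]
      rintro ⟨h3, h4⟩
      have := mem_range.mp hn
      exact hcd ⟨by omega, by omega⟩
    rw [this, mul_zero]

theorem mx_sn (N : ℕ) (w : ℂ) (h : Rt N w) : mx N (sn w (-1)) = crossN N w := by
  have hw := rt_ne h
  funext p q
  obtain ⟨⟨a, ha⟩, ⟨b, hb⟩⟩ := p
  obtain ⟨⟨c, hc⟩, ⟨d, hd⟩⟩ := q
  show (-1 : ℂ) ^ (1 + (a : ℤ) + b) * w ^ (-(1 + (a : ℤ) + b)) *
    ∑ n ∈ range (b + 1), (-1) ^ n *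
      w ^ (-((n * (n - 1) / 2 : ℕ) : ℤ) - 2 * ((b : ℤ) - n) * ((a : ℤ) + n)) * qb w b n *
      (∏ t ∈ range n, lb w (-1) (-(a : ℤ) - 1 - t)) * dl c d (b - n) (a + n) =
    if a + b = c + d ∧ c ≤ b then
    (-1) ^ (b - c) *
      w ^ (((N : ℤ) - 1) * (1 + c + d) - 2 * c * d) /
      w ^ ((b - c) * (b - c - 1) / 2) *
      (brf w b / (brf w c * brf w (b - c))) *
      ∏ t ∈ range (b - c), br w ((N : ℤ) - d + t)
    else 0
  by_cases hcd : a + b = c + d ∧ c ≤ b
  · obtain ⟨h1, h2⟩ := hcd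
    rw [if_pos ⟨h1, h2⟩]
    rw [Finset.sum_eq_single (b - c)]
    · have e1 : dl c d (b - (b - c)) (a + (b - c)) = 1 := by
        unfold dl
        rw [if_pos]
        omega
      rw [e1, mul_one, qb_eq N w h b (b - c) hb (by omega), neg_zpow N w h]
      have e2 : b - (b - c) = c := by omega
      rw [e2]
      have hz : (a : ℤ) + b = c + d := by exact_mod_cast h1
      have e3 : ∏ t ∈ range (b - c), lb w (-1) (-(a : ℤ) - 1 - t) =
          ∏ t ∈ range (b - c), br w ((N : ℤ) - d + t) := by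
        rw [← Finset.prod_range_reflect]
        refine Finset.prod_congr rfl fun t ht => ?_
        rw [lb_neg N w h]
        congr 1
        have := mem_range.mp ht
        have e : ((b - c - 1 - t : ℕ) : ℤ) = (b : ℤ) - c - 1 - t := by omega
        rw [e]
        linarith
      rw [e3]
      have e4 : w ^ ((N : ℤ) * (1 + (a : ℤ) + b)) * w ^ (-(1 + (a : ℤ) + b)) *
          w ^ (-(((b - c) * (b - c - 1) / 2 : ℕ) : ℤ) -
            2 * ((b : ℤ) - (b - c : ℕ)) * ((a : ℤ) + (b - c : ℕ))) =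
          w ^ (((N : ℤ) - 1) * (1 + c + d) - 2 * c * d) /
            w ^ ((b - c) * (b - c - 1) / 2) := by
        rw [eq_div_iff (pow_ne_zero _ hw), ← zpow_natCast, ← zpow_add₀ hw, ← zpow_add₀ hw,
          ← zpow_add₀ hw]
        congr 1
        have e5 : ((b - c : ℕ) : ℤ) = (b : ℤ) - c := by omega
        rw [e5]
        have e : (d : ℤ) = a + b - c := by linarith
        rw [e]
        ring
      linear_combination ((-1) ^ (b - c) * (brf w b / (brf w c * brf w (b - c))) *
        ∏ t ∈ range (b - c), br w ((N : ℤ) - d + t)) * e4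
    · intro n hn hne
      have : dl c d (b - n) (a + n) = 0 := by
        unfold dl
        rw [if_neg]
        rintro ⟨h3, h4⟩
        have := mem_range.mp hn
        omega
      rw [this, mul_zero]
    · intro h3
      exact absurd (mem_range.mpr (by omega)) h3
  · rw [if_neg hcd, Finset.sum_eq_zero, mul_zero]
    intro n hn
    have : dl c d (b - n) (a + n) = 0 := by
      unfold dl
      rw [if_neg]
      rintro ⟨h3, h4⟩
      have := mem_range.mp hn
      exact hcd ⟨by omega, by omega⟩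
    rw [this, mul_zero]

/-! ### Continuity -/

theorem cont_cb {f : ℂ → ℂ} {x : ℂ} (hf : ContinuousAt f x) (h0 : f x ≠ 0) :
    ContinuousAt (fun l => cb (f l)) x := by
  unfold cb
  exact hf.sub (hf.inv₀ h0)

theorem cont_lb (w : ℂ) (hw : w ≠ 0) (k : ℤ) (x : ℂ) (hx : x ≠ 0) :
    ContinuousAt (fun l => lb w l k) x := by
  unfold lb
  exact cont_cb (continuousAt_id.mul continuousAt_const) (mul_ne_zero hx (zpow_ne_zero _ hw))

theorem cont_sg (N : ℕ) (w : ℂ) (hw : w ≠ 0) (x : ℂ) (hx : x ≠ 0) (p q : Fin N × Fin N) :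
    ContinuousAt (fun l => mx N (sg w l) p q) x := by
  show ContinuousAt (fun l => l ^ (-(1 + ((p.1 : ℕ) : ℤ) + (p.2 : ℕ))) *
    w ^ (1 + ((p.1 : ℕ) : ℤ) + (p.2 : ℕ) + 2 * (p.1 : ℕ) * (p.2 : ℕ)) *
    ∑ n ∈ range ((p.1 : ℕ) + 1), w ^ (n * (n - 1) / 2) * qb w p.1 n *
      (∏ t ∈ range n, lb w l (-((p.2 : ℕ) : ℤ) - 1 - t)) * dl q.1 q.2 (p.2 + n) (p.1 - n)) x
  refine ((continuousAt_zpow₀ _ _ (Or.inl hx)).mul continuousAt_const).mul ?_
  refine tendsto_finsetSum _ fun n _ => ?_
  refine ContinuousAt.mul (ContinuousAt.mul continuousAt_const ?_) continuousAt_const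
  exact tendsto_finsetProd _ fun t _ => cont_lb w hw _ x hx

theorem cont_sn (N : ℕ) (w : ℂ) (hw : w ≠ 0) (x : ℂ) (hx : x ≠ 0) (p q : Fin N × Fin N) :
    ContinuousAt (fun l => mx N (sn w l) p q) x := by
  show ContinuousAt (fun l => l ^ (1 + ((p.1 : ℕ) : ℤ) + (p.2 : ℕ)) *
    w ^ (-(1 + ((p.1 : ℕ) : ℤ) + (p.2 : ℕ))) *
    ∑ n ∈ range ((p.2 : ℕ) + 1), (-1) ^ n *
      w ^ (-((n * (n - 1) / 2 : ℕ) : ℤ) - 2 * (((p.2 : ℕ) : ℤ) - n) * (((p.1 : ℕ) : ℤ) + n)) *
      qb w p.2 n *
      (∏ t ∈ range n, lb w l (-((p.1 : ℕ) : ℤ) - 1 - t)) * dl q.1 q.2 (p.2 - n) (p.1 + n)) x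
  refine ((continuousAt_zpow₀ _ _ (Or.inl hx)).mul continuousAt_const).mul ?_
  refine tendsto_finsetSum _ fun n _ => ?_
  refine ContinuousAt.mul (ContinuousAt.mul continuousAt_const ?_) continuousAt_const
  exact tendsto_finsetProd _ fun t _ => cont_lb w hw _ x hx

theorem cont_gen {ι : Type} (P : ℂ → Matrix (ι × ι) (ι × ι) ℂ)
    (x : ℂ) (hP : ∀ p q, ContinuousAt (fun l => P l p q) x) (n k : ℕ) (s t : Fin n → ι)
    (inst : DecidableEq ι) :
    ContinuousAt (fun l => @gen ι inst (P l) n k s t) x := by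
  unfold gen
  split_ifs
  · exact hP _ _
  · exact continuousAt_const
  · exact continuousAt_const
  · exact continuousAt_const

theorem cont_rep {N : ℕ} (P Q : ℂ → Matrix (Fin N × Fin N) (Fin N × Fin N) ℂ)
    (x : ℂ) (hP : ∀ p q, ContinuousAt (fun l => P l p q) x)
    (hQ : ∀ p q, ContinuousAt (fun l => Q l p q) x) (n : ℕ) (b : List (ℕ × Bool))
    (s t : Fin n → Fin N) :
    ContinuousAt (fun l => rep (P l) (Q l) n b s t) x := by
  induction b generalizing s t with
  | nil => exact continuousAt_const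
  | cons g b ih =>
    have e : (fun l => rep (P l) (Q l) n (g :: b) s t) = fun l =>
        ∑ r, gen (if g.2 then P l else Q l) n g.1 s r * rep (P l) (Q l) n b r t := by
      funext l
      unfold rep
      rw [List.map_cons, List.prod_cons]
      rfl
    rw [e]
    refine tendsto_finsetSum _ fun r _ => ?_
    refine ContinuousAt.mul ?_ (ih r t)
    refine cont_gen (fun l => if g.2 then P l else Q l) x ?_ n g.1 s r _
    intro p q
    split_ifs
    · exact hP p q
    · exact hQ p q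

theorem jlc : S_JLC := by
  intro N b hN
  have hR := rtv N hN
  have hw := rt_ne hR
  have h0 : 0 < N := by omega
  have hne : (-1 : ℂ) ≠ 0 := by norm_num
  constructor
  · unfold JL cjones
    rw [dif_pos h0, dif_pos h0, mx_sg N _ hR, mx_sn N _ hR]
    have : (fun x : Fin N => KK (vN N) (-1) x) =
        fun x : Fin N => vN N ^ ((N : ℤ) - 1 - 2 * (x : ℕ)) := by
      funext x
      exact KK_neg N _ hR x
    rw [this]
  · have e : (fun l => JL N (vN N) l b) = fun l =>
        ∑ s : Fin 2 → Fin N, (∏ x, KK (vN N) l (s x)) *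
          rep (mx N (sg (vN N) l)) (mx N (sn (vN N) l)) 3 b (Fin.cons ⟨0, h0⟩ s)
            (Fin.cons ⟨0, h0⟩ s) := by
      funext l
      rw [JL, dif_pos h0]
      rfl
    rw [e]
    refine tendsto_finsetSum _ fun s _ => ?_
    refine ContinuousAt.mul ?_ ?_
    · refine tendsto_finsetProd _ fun x _ => ?_
      unfold KK
      exact continuousAt_id.mul continuousAt_const
    · exact cont_rep (fun l => mx N (sg (vN N) l)) (fun l => mx N (sn (vN N) l)) (-1)
        (fun p q => cont_sg N _ hw _ hne p q) (fun p q => cont_sn N _ hw _ hne p q) 3 b _ _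

end Pool.Agent.Y195.CB
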