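import Pool.Agent.Y472.A.Defs2

/-!
# Closed 3-braids: matrices versus operators (tasks RTV, JLX, JLC of Y472)
-/

set_option autoImplicit false

namespace Pool.Agent.Y195.CB

open Finset Filter Topology Pool.Agent.H550R3.Jones Pool.Agent.W711.HT Pool.Agent.Y472
open scoped Real

/-! ### RTV -/

theorem rtv : S_RTV := by
  intro N hN
  have hN0 : (N : ℂ) ≠ 0 := by
    have : N ≠ 0 := by omega
    exact_mod_cast this
  refine ⟨hN, ?_, ?_, ?_⟩
  · have h := Complex.isPrimitiveRoot_exp N (by omega)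
    have e : vN N ^ 2 = Complex.exp (2 * π * Complex.I / N) := by
      unfold vN
      rw [← Complex.exp_nat_mul]
      congr 1
      push_cast
      ring
    rw [e]
    exact h
  · unfold vN
    rw [← Complex.exp_nat_mul]
    have : (N : ℂ) * (π * Complex.I / N) = π * Complex.I := by
      field_simp
    rw [this, Complex.exp_pi_mul_I]
  · unfold vN
    have : (π : ℂ) * Complex.I / N = ((π / N : ℝ) : ℂ) * Complex.I := by
      push_cast
      ring
    rw [this, Complex.norm_exp_ofReal_mul_I]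

/-! ### JLX -/

/-- restriction to the box -/
def rs (N : ℕ) (x : V3) : (Fin 3 → Fin N) → ℂ := fun s => x (s 0) (s 1) (s 2)

theorem t2_expand (N : ℕ) (x : V2) (hx : x ∈ T2 N) :
    x = ∑ q : Fin N, ∑ s : Fin N, x q s • dl q s := by
  funext a b
  simp only [Finset.sum_apply, Pi.smul_apply, smul_eq_mul, dl]
  by_cases h : a < N ∧ b < N
  · obtain ⟨ha, hb⟩ := h
    rw [Finset.sum_eq_single (⟨a, ha⟩ : Fin N)]
    · rw [Finset.sum_eq_single (⟨b, hb⟩ : Fin N)]
      · simp
      · intro c _ hc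
        have : ¬ b = (c : ℕ) := fun h => hc (Fin.ext h.symm)
        simp [this]
      · intro h; exact absurd (Finset.mem_univ _) h
    · intro c _ hc
      have : ¬ a = (c : ℕ) := fun h => hc (Fin.ext h.symm)
      simp [this]
    · intro h; exact absurd (Finset.mem_univ _) h
  · have h0 : x a b = 0 := hx a b (by omega)
    rw [h0]
    symm
    refine Finset.sum_eq_zero fun q _ => Finset.sum_eq_zero fun s _ => ?_
    have : ¬ (a = (q : ℕ) ∧ b = (s : ℕ)) := by
      rintro ⟨h1, h2⟩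
      have := q.2
      have := s.2
      omega
    simp [this]

theorem apply_expand (N : ℕ) (A : V2 →ₗ[ℂ] V2) (x : V2) (hx : x ∈ T2 N) (a b : ℕ) :
    A x a b = ∑ q : Fin N, ∑ s : Fin N, A (dl q s) a b * x q s := by
  conv_lhs => rw [t2_expand N x hx]
  simp only [map_sum, map_smul, Finset.sum_apply, Pi.smul_apply, smul_eq_mul]
  refine Finset.sum_congr rfl fun q _ => Finset.sum_congr rfl fun s _ => mul_comm _ _

/-- sums over triples -/
theorem sum3 (N : ℕ) (f : (Fin 3 → Fin N) → ℂ) :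
    ∑ t : Fin 3 → Fin N, f t = ∑ a : Fin N, ∑ b : Fin N, ∑ c : Fin N, f ![a, b, c] := by
  rw [← Fintype.sum_prod_type']
  rw [← Fintype.sum_prod_type' (fun (p : Fin N × Fin N) (c : Fin N) => f ![p.1, p.2, c])]
  refine (Fintype.sum_equiv
    { toFun := fun p => ![p.1.1, p.1.2, p.2]
      invFun := fun t => ((t 0, t 1), t 2)
      left_inv := fun p => by simp
      right_inv := fun t => by
        funext i
        fin_cases i <;> rfl } _ _ fun p => rfl).symm

theorem gen0 (N : ℕ) (A : V2 →ₗ[ℂ] V2) (x : V3) (hx : x ∈ T3 N) :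
    (gen (mx N A) 3 0).mulVec (rs N x) = rs N (L12 A x) := by
  funext s
  show ∑ t, gen (mx N A) 3 0 s t * rs N x t = A (fun a b => x a b (s 2)) (s 0) (s 1)
  rw [apply_expand N A (fun a b => x a b (s 2)) (fun a b h => hx a b (s 2) (by tauto)), sum3]
  refine Finset.sum_congr rfl fun a _ => Finset.sum_congr rfl fun b _ => ?_
  rw [Finset.sum_eq_single (s 2)]
  · have h1 : ∀ j : Fin 3, (j : ℕ) ≠ 0 → (j : ℕ) ≠ 0 + 1 → s j = (![a, b, s 2] : Fin 3 → Fin N) j := by
      intro j hj0 hj1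
      have : j = 2 := by
        apply Fin.ext
        have := j.2
        show (j : ℕ) = 2
        omega
      subst this
      rfl
    unfold gen
    rw [dif_pos (by norm_num), if_pos h1]
    rfl
  · intro c _ hc
    have h1 : ¬ ∀ j : Fin 3, (j : ℕ) ≠ 0 → (j : ℕ) ≠ 0 + 1 →
        s j = (![a, b, c] : Fin 3 → Fin N) j := by
      intro h
      exact hc (h 2 (by decide) (by decide)).symm
    unfold gen
    rw [dif_pos (by norm_num), if_neg h1, zero_mul]
  · intro h; exact absurd (Finset.mem_univ _) h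

theorem gen1 (N : ℕ) (A : V2 →ₗ[ℂ] V2) (x : V3) (hx : x ∈ T3 N) :
    (gen (mx N A) 3 1).mulVec (rs N x) = rs N (L23 A x) := by
  funext s
  show ∑ t, gen (mx N A) 3 1 s t * rs N x t = A (x (s 0)) (s 1) (s 2)
  rw [apply_expand N A (x (s 0)) (fun a b h => hx (s 0) a b (by tauto)), sum3]
  rw [Finset.sum_eq_single (s 0)]
  · refine Finset.sum_congr rfl fun b _ => Finset.sum_congr rfl fun c _ => ?_
    have h1 : ∀ j : Fin 3, (j : ℕ) ≠ 1 → (j : ℕ) ≠ 1 + 1 → s j = (![s 0, b, c] : Fin 3 → Fin N) j := by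
      intro j hj0 hj1
      have : j = 0 := by
        apply Fin.ext
        have := j.2
        show (j : ℕ) = 0
        omega
      subst this
      rfl
    unfold gen
    rw [dif_pos (by norm_num), if_pos h1]
    rfl
  · intro a _ ha
    refine Finset.sum_eq_zero fun b _ => Finset.sum_eq_zero fun c _ => ?_
    have h1 : ¬ ∀ j : Fin 3, (j : ℕ) ≠ 1 → (j : ℕ) ≠ 1 + 1 →
        s j = (![a, b, c] : Fin 3 → Fin N) j := by
      intro h
      exact ha (h 0 (by decide) (by decide)).symm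
    unfold gen
    rw [dif_pos (by norm_num), if_neg h1, zero_mul]
  · intro h; exact absurd (Finset.mem_univ _) h

theorem l12_t3 (N : ℕ) (A : V2 →ₗ[ℂ] V2) (hA : ∀ x ∈ T2 N, A x ∈ T2 N) (x : V3) (hx : x ∈ T3 N) :
    L12 A x ∈ T3 N := by
  intro a b c h
  show A (fun a b => x a b c) a b = 0
  by_cases hc : N ≤ c
  · have : (fun a b => x a b c) = (0 : V2) := by
      funext a b
      exact hx a b c (by tauto)
    rw [this, map_zero]
    rfl
  · exact hA _ (fun a b h => hx a b c (by tauto)) a b (by tauto)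

theorem l23_t3 (N : ℕ) (A : V2 →ₗ[ℂ] V2) (hA : ∀ x ∈ T2 N, A x ∈ T2 N) (x : V3) (hx : x ∈ T3 N) :
    L23 A x ∈ T3 N := by
  intro a b c h
  show A (x a) b c = 0
  by_cases ha : N ≤ a
  · have : x a = (0 : V2) := by
      funext b c
      exact hx a b c (by tauto)
    rw [this, map_zero]
    rfl
  · exact hA _ (fun b c h => hx a b c (by tauto)) b c (by tauto)

theorem rep_opw (N : ℕ) (w l : ℂ) (hs : ∀ x ∈ T2 N, sg w l x ∈ T2 N)
    (hn : ∀ x ∈ T2 N, sn w l x ∈ T2 N) (b : List (ℕ × Bool)) (hb : ∀ g ∈ b, g.1 < 2)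
    (x : V3) (hx : x ∈ T3 N) :
    (rep (mx N (sg w l)) (mx N (sn w l)) 3 b).mulVec (rs N x) = rs N (opw w l b x) ∧
      opw w l b x ∈ T3 N := by
  induction b with
  | nil => exact ⟨by simp [rep, opw], by simpa [opw] using hx⟩
  | cons g b ih =>
    obtain ⟨ih1, ih2⟩ := ih fun g hg => hb g (List.mem_cons_of_mem _ hg)
    have hg : g.1 < 2 := hb g (List.mem_cons_self)
    have e1 : rep (mx N (sg w l)) (mx N (sn w l)) 3 (g :: b) =
        gen (if g.2 then mx N (sg w l) else mx N (sn w l)) 3 g.1 *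
          rep (mx N (sg w l)) (mx N (sn w l)) 3 b := by
      simp [rep]
    have e2 : opw w l (g :: b) x = (if g.1 = 0 then L12 (if g.2 then sg w l else sn w l)
        else L23 (if g.2 then sg w l else sn w l)) (opw w l b x) := by
      unfold opw
      rw [List.map_cons, List.prod_cons]
      rfl
    have e3 : (if g.2 then mx N (sg w l) else mx N (sn w l)) =
        mx N (if g.2 then sg w l else sn w l) := by
      split_ifs <;> rfl
    have hA : ∀ x ∈ T2 N, (if g.2 then sg w l else sn w l) x ∈ T2 N := by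
      split_ifs
      · exact hs
      · exact hn
    rw [e1, e2, e3, ← Matrix.mulVec_mulVec, ih1]
    generalize (if g.2 then sg w l else sn w l) = A at hA
    rcases Nat.lt_or_ge g.1 1 with h0 | h1
    · have h0 : g.1 = 0 := by omega
      rw [if_pos h0, h0]
      exact ⟨gen0 N _ _ ih2, l12_t3 N _ hA _ ih2⟩
    · have h1 : g.1 = 1 := by omega
      have h2 : g.1 ≠ 0 := by omega
      rw [if_neg h2, h1]
      exact ⟨gen1 N _ _ ih2, l23_t3 N _ hA _ ih2⟩

theorem io_t3 (N : ℕ) (hN : 0 < N) (q s : Fin N) : io (dl q s) ∈ T3 N := by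
  intro a b c h
  show (if a = 0 then dl q s b c else 0) = 0
  split_ifs with ha
  · have : ¬ (b = (q : ℕ) ∧ c = (s : ℕ)) := by
      rintro ⟨h1, h2⟩
      have := q.2
      have := s.2
      omega
    simp [dl, this]
  · rfl

theorem rs_io (N : ℕ) (hN : 0 < N) (q s : Fin N) :
    rs N (io (dl q s)) = Pi.single (Fin.cons (⟨0, hN⟩ : Fin N) ![q, s] : Fin 3 → Fin N) (1 : ℂ) := by
  funext t
  show (if (t 0 : ℕ) = 0 then (if (t 1 : ℕ) = q ∧ (t 2 : ℕ) = s then (1 : ℂ) else 0) else 0) = _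
  by_cases ht : t = (Fin.cons (⟨0, hN⟩ : Fin N) ![q, s] : Fin 3 → Fin N)
  · rw [ht, Pi.single_eq_same]
    have e0 : ((Fin.cons (⟨0, hN⟩ : Fin N) ![q, s] : Fin 3 → Fin N) 0) = ⟨0, hN⟩ := rfl
    have e1 : ((Fin.cons (⟨0, hN⟩ : Fin N) ![q, s] : Fin 3 → Fin N) 1) = q := rfl
    have e2 : ((Fin.cons (⟨0, hN⟩ : Fin N) ![q, s] : Fin 3 → Fin N) 2) = s := rfl
    rw [e0, e1, e2]
    simp
  · rw [Pi.single_eq_of_ne ht]
    by_cases h : (t 0 : ℕ) = 0 ∧ (t 1 : ℕ) = q ∧ (t 2 : ℕ) = s
    · exfalso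
      apply ht
      funext i
      fin_cases i
      · exact Fin.ext h.1
      · exact Fin.ext h.2.1
      · exact Fin.ext h.2.2
    · split_ifs with h1 h2
      · exact absurd ⟨h1, h2⟩ h
      · rfl
      · rfl

theorem jlx : S_JLX := by
  intro hT N w l hR hl b hb
  have hN : 0 < N := by have := hR.pos; omega
  obtain ⟨hs, hn, -⟩ := hT N w l hR hl
  rw [JL, dif_pos hN]
  show ∑ s : Fin 2 → Fin N, (∏ x, KK w l (s x)) *
    rep (mx N (sg w l)) (mx N (sn w l)) 3 b (Fin.cons ⟨0, hN⟩ s) (Fin.cons ⟨0, hN⟩ s) = _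
  have key : ∀ q s : Fin N, rep (mx N (sg w l)) (mx N (sn w l)) 3 b
      (Fin.cons (⟨0, hN⟩ : Fin N) ![q, s]) (Fin.cons (⟨0, hN⟩ : Fin N) ![q, s]) =
      opw w l b (io (dl q s)) 0 q s := by
    intro q s
    have h := (rep_opw N w l hs hn b hb _ (io_t3 N hN q s)).1
    rw [rs_io N hN q s, Matrix.mulVec_single_one] at h
    exact congrFun h (Fin.cons (⟨0, hN⟩ : Fin N) ![q, s])
  rw [← Fin.sum_univ_eq_sum_range (fun q => ∑ s ∈ range N, KK w l q * KK w l s *
    opw w l b (io (dl q s)) 0 q s) N]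
  simp_rw [← Fin.sum_univ_eq_sum_range (fun s => KK w l _ * KK w l s *
    opw w l b (io (dl _ s)) 0 _ s) N]
  rw [← Fintype.sum_prod_type']
  refine Fintype.sum_equiv (finTwoArrowEquiv (Fin N)) _ _ fun s => ?_
  rw [Fin.prod_univ_two]
  have e : s = ![s 0, s 1] := by
    funext i
    fin_cases i <;> rfl
  have k := key (s 0) (s 1)
  rw [← e] at k
  rw [k]
  rfl

end Pool.Agent.Y195.CB
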